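import Pool.Agent.Helper25.RN.BND
import Pool.Agent.Helper72.RN.SVS

/-! # Row RNZ of the sheet for `N_9(H) ≥ H ^ (5/36 - ε)` (MP_798d7d_nt) -/

set_option autoImplicit false

namespace Pool.Helper70.RN

open Pool.Helper70.RT (syl)

namespace S17N

open Polynomial
open Pool.Helper70.RN.S25

/-- all coefficients are at most `C m ^ n` -/
def BC (n : ℕ) (P : Tp → ℤ[X]) : Prop := ∀ j, BO n (fun _ T => (P T).coeff j)

theorem BC.congr {n : ℕ} {P Q : Tp → ℤ[X]} (h : BC n P) (e : ∀ T, Q T = P T) : BC n Q := by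
  have : Q = P := funext e
  rw [this]
  exact h

theorem BC.mono {n k : ℕ} {P : Tp → ℤ[X]} (h : BC n P) (hk : n ≤ k) : BC k P :=
  fun j => (h j).mono hk

theorem BC.const {n : ℕ} (p : ℤ[X]) : BC n (fun _ => p) := fun j => BO.const n (p.coeff j)

theorem BC.ofC {n : ℕ} {f : Tp → ℤ} (h : BO n (fun _ T => f T)) : BC n (fun T => C (f T)) := by
  intro j
  by_cases hj : j = 0
  · subst hj
    exact h.congr (fun _ _ => coeff_C_zero)
  · exact (BO.const n 0).congr (fun _ _ => coeff_C_of_ne_zero hj)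

theorem BC.add {n : ℕ} {P Q : Tp → ℤ[X]} (hp : BC n P) (hq : BC n Q) :
    BC n (fun T => P T + Q T) := fun j => ((hp j).add (hq j)).congr (fun _ _ => coeff_add _ _ _)

theorem BC.sub {n : ℕ} {P Q : Tp → ℤ[X]} (hp : BC n P) (hq : BC n Q) :
    BC n (fun T => P T - Q T) := fun j => ((hp j).sub (hq j)).congr (fun _ _ => coeff_sub _ _ _)

theorem BO.sum {ι : Type} (F : Finset ι) (k : ℕ) (f : ι → Tp → ℤ)
    (h : ∀ a ∈ F, BO k (fun _ T => f a T)) : BO k (fun _ T => ∑ a ∈ F, f a T) := by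
  classical
  induction F using Finset.induction_on with
  | empty =>
    simp only [Finset.sum_empty]
    exact BO.const k 0
  | insert a F ha ih =>
    simp only [Finset.sum_insert ha]
    exact (h a (Finset.mem_insert_self _ _)).add
      (ih (fun b hb => h b (Finset.mem_insert_of_mem hb)))

theorem BC.mul {a b l : ℕ} {P Q : Tp → ℤ[X]} (hp : BC a P) (hq : BC b Q)
    (hl : a + b ≤ l) : BC l (fun T => P T * Q T) := fun j =>
  (BO.sum (Finset.HasAntidiagonal.antidiagonal j) l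
    (fun (x : ℕ × ℕ) T => (P T).coeff x.1 * (Q T).coeff x.2)
    (fun x _ => (hp x.1).mul (hq x.2) hl)).congr (fun _ _ => coeff_mul _ _ _)

theorem BC.cmul {n : ℕ} (c : ℤ[X]) {P : Tp → ℤ[X]} (hp : BC n P) :
    BC n (fun T => c * P T) := (BC.const (n := 0) c).mul hp (by omega)

section
variable (v : Tp → Fin 4 → ℤ) (hv : ∀ i, BO 3 (fun _ T => v T i))
include hv

theorem bc_q3 : BC 15 (fun T => q3 (fun i => (C (v T i) : ℤ[X]))) :=
  (BC.ofC (bo_h3 v hv)).congr (fun T => S72.Ch3 _)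

theorem bc_q2 : BC 18 (fun T => q2 (fun i => (C (v T i) : ℤ[X])) X) := by
  refine ((((BC.ofC (bo_e2 v hv)).mul (l := 6) (BC.const (n := 0) (2 * X)) (by omega)).mono
    (by omega)).add (BC.ofC (bo_h2 v hv))).congr (fun T => ?_)
  unfold q2
  rw [S72.Ce2, S72.Ch2]
  ring

theorem bc_q1 : BC 21 (fun T => q1 (fun i => (C (v T i) : ℤ[X])) X) := by
  refine ((((BC.ofC (bo_e3 v hv)).mul (l := 9) (BC.const (n := 0) (-2 * X)) (by omega)).mono
    (by omega)).add (BC.ofC (bo_h1 v hv))).congr (fun T => ?_)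
  unfold q1
  rw [S72.Ce3, S72.Ch1]
  ring

theorem bc_q0 : BC 24 (fun T => q0 (fun i => (C (v T i) : ℤ[X])) X) := by
  refine (((BC.const (X ^ 2)).add (((BC.ofC (bo_g0 v hv)).mul (l := 12)
    (BC.const (n := 0) (2 * X)) (by omega)).mono (by omega))).add
    (BC.ofC (bo_h0 v hv))).congr (fun T => ?_)
  unfold q0
  rw [S72.Cg0, S72.Ch0]
  ring

theorem bc_I : BC 54 (fun T => pI (v T)) := by
  have a3 := bc_q3 v hv
  have a2 := bc_q2 v hv
  have a1 := bc_q1 v hv
  have a0 := bc_q0 v hv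
  refine (((BC.cmul (48 * X) (a0.mono (by omega))).sub
    (BC.cmul 3 (a3.mul a1 (by omega)))).add (a2.mul a2 (by omega))).congr (fun T => ?_)
  unfold pI fI q4
  ring

theorem bc_J : BC 54 (fun T => pJ (v T)) := by
  have a3 := bc_q3 v hv
  have a2 := bc_q2 v hv
  have a1 := bc_q1 v hv
  have a0 := bc_q0 v hv
  refine (((((BC.cmul (288 * X) (a2.mul a0 (by omega))).add
    (BC.cmul 9 ((a3.mul a2 (l := 33) (by omega)).mul a1 (by omega)))).sub
    (BC.cmul (108 * X) (a1.mul a1 (by omega)))).sub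
    (BC.cmul 27 (a0.mul (a3.mul a3 (l := 30) (by omega)) (by omega)))).sub
    (BC.cmul 2 (a2.mul (a2.mul a2 (l := 36) (by omega)) (by omega)))).congr (fun T => ?_)
  unfold pJ fJ q4
  ring

theorem bo_syl (i j : Fin 7) : BO 54 (fun _ T => syl (pI (v T)) (pJ (v T)) i j) := by
  have hI := bc_I v hv
  have hJ := bc_J v hv
  simp only [syl, Matrix.of_apply]
  split_ifs
  · exact hI _
  · exact BO.const _ _
  · exact hJ _
  · exact BO.const _ _

theorem bo_Ru : BO 378 (fun _ T => Ru (v T)) := by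
  have h := bo_syl v hv
  refine (BO.sum Finset.univ 378 (fun (σ : Equiv.Perm (Fin 7)) T =>
    (((Equiv.Perm.sign σ : ℤˣ) : ℤ)) *
      ∏ i, syl (pI (v T)) (pJ (v T)) (σ i) i) (fun σ _ => ?_)).congr (fun m T => ?_)
  · refine BO.cmul _ ?_
    simp only [Fin.prod_univ_seven]
    exact ((((((h _ _).mul (h _ _) (l := 108) (by omega)).mul (h _ _) (l := 162)
      (by omega)).mul (h _ _) (l := 216) (by omega)).mul (h _ _) (l := 270) (by omega)).mul
      (h _ _) (l := 324) (by omega)).mul (h _ _) (by omega)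
  · unfold Ru
    rw [Matrix.det_apply']
    rfl

end

def M0 : Matrix (Fin 7) (Fin 7) ℤ :=
  !![604512866205696, -40562208768, 8174080, 48, 0, 0, 0; 0, 604512866205696, -40562208768,
    8174080, 48, 0, 0; 0, 0, 604512866205696, -40562208768, 8174080, 48, 0; 0, 0, 0,
    604512866205696, -40562208768, 8174080, 48; -31206410040060791488512, 9156567668955807744,
    -606086212681728, -25577689088, -589824, 0, 0; 0, -31206410040060791488512,
    9156567668955807744, -606086212681728, -25577689088, -589824, 0; 0, 0,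
    -31206410040060791488512, 9156567668955807744, -606086212681728, -25577689088, -589824]

def M5 : Matrix (Fin 7) (Fin 7) (ZMod 5) :=
  !![1, 2, 0, 3, 0, 0, 0; 0, 1, 2, 0, 3, 0, 0; 0, 0, 1, 2, 0, 3, 0; 0, 0, 0, 1, 2, 0, 3; 3, 4,
    2, 2, 1, 0, 0; 0, 3, 4, 2, 2, 1, 0; 0, 0, 3, 4, 2, 2, 1]

def N5 : Matrix (Fin 7) (Fin 7) (ZMod 5) :=
  !![3, 1, 4, 0, 1, 3, 0; 0, 3, 1, 4, 0, 1, 3; 3, 4, 0, 3, 4, 3, 1; 1, 1, 3, 4, 3, 0, 3; 3, 0,
    3, 0, 4, 1, 0; 0, 3, 0, 3, 0, 4, 1; 1, 3, 2, 4, 3, 1, 4]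

theorem pI_eq (u : Fin 4 → ℤ) : pI u = C 48 * X ^ 3 +
    C (96 * g0 u + 4 * e2 u ^ 2) * X ^ 2 +
    C (48 * h0 u + 6 * h3 u * e3 u + 4 * e2 u * h2 u) * X +
    C (-3 * h3 u * h1 u + h2 u ^ 2) := by
  unfold pI fI q4 q3 q2 q1 q0
  rw [S72.Ce2, S72.Ce3, S72.Cg0, S72.Ch3, S72.Ch2, S72.Ch1, S72.Ch0]
  simp only [map_add, map_neg, map_mul, map_pow, map_ofNat]
  ring

theorem pJ_eq (u : Fin 4 → ℤ) : pJ u = C (576 * e2 u) * X ^ 4 +
    C (1152 * e2 u * g0 u + 288 * h2 u - 432 * e3 u ^ 2 - 16 * e2 u ^ 3) * X ^ 3 +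
    C (576 * e2 u * h0 u + 576 * h2 u * g0 u - 36 * h3 u * e2 u * e3 u +
      432 * e3 u * h1 u - 27 * h3 u ^ 2 - 24 * e2 u ^ 2 * h2 u) * X ^ 2 +
    C (288 * h2 u * h0 u + 18 * h3 u * (e2 u * h1 u - e3 u * h2 u) -
      108 * h1 u ^ 2 - 54 * h3 u ^ 2 * g0 u - 12 * e2 u * h2 u ^ 2) * X +
    C (9 * h3 u * h2 u * h1 u - 27 * h3 u ^ 2 * h0 u - 2 * h2 u ^ 3) := by
  unfold pJ fJ q4 q3 q2 q1 q0
  rw [S72.Ce2, S72.Ce3, S72.Cg0, S72.Ch3, S72.Ch2, S72.Ch1, S72.Ch0]
  simp only [map_add, map_sub, map_mul, map_pow, map_ofNat]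
  ring

theorem pIb : pI ub = C 48 * X ^ 3 + C 8174080 * X ^ 2 + C (-40562208768) * X + C 604512866205696 := by
  have b2 : e2 ub = (-1024) := by decide +kernel
  have b3 : e3 ub = (-16) := by decide +kernel
  have bg : g0 ub = 41456 := by decide +kernel
  have c3 : h3 ub = (-290560) := by decide +kernel
  have c2 : h2 ub = 21340416 := by decide +kernel
  have c1 : h1 ub = 171048448 := by decide +kernel
  have c0 : h0 ub = 975421696 := by decide +kernel
  rw [pI_eq, b2, b3, bg, c3, c2, c1, c0]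
  norm_num

theorem pJb : pJ ub = C (-589824) * X ^ 4 + C (-25577689088) * X ^ 3 + C (-606086212681728) * X ^ 2 +
    C 9156567668955807744 * X + C (-31206410040060791488512) := by
  have b2 : e2 ub = (-1024) := by decide +kernel
  have b3 : e3 ub = (-16) := by decide +kernel
  have bg : g0 ub = 41456 := by decide +kernel
  have c3 : h3 ub = (-290560) := by decide +kernel
  have c2 : h2 ub = 21340416 := by decide +kernel
  have c1 : h1 ub = 171048448 := by decide +kernel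
  have c0 : h0 ub = 975421696 := by decide +kernel
  rw [pJ_eq, b2, b3, bg, c3, c2, c1, c0]
  norm_num

theorem cIb (k : ℕ) : (pI ub).coeff k = (if k = 3 then 48 else 0) +
    (if k = 2 then 8174080 else 0) + (if k = 1 then (-40562208768) else 0) +
    (if k = 0 then 604512866205696 else 0) := by
  rw [pIb]
  simp only [coeff_add, coeff_C_mul, coeff_X_pow, coeff_X, coeff_C, mul_ite, mul_one, mul_zero,
    eq_comm (a := 1) (b := k)]

theorem cJb (k : ℕ) : (pJ ub).coeff k = (if k = 4 then (-589824) else 0) +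
    (if k = 3 then (-25577689088) else 0) + (if k = 2 then (-606086212681728) else 0) +
    (if k = 1 then 9156567668955807744 else 0) +
    (if k = 0 then (-31206410040060791488512) else 0) := by
  rw [pJb]
  simp only [coeff_add, coeff_C_mul, coeff_X_pow, coeff_X, coeff_C, mul_ite, mul_one, mul_zero,
    eq_comm (a := 1) (b := k)]

theorem sylM0 : syl (pI ub) (pJ ub) = M0 := by
  ext i j
  unfold syl M0
  simp only [Matrix.of_apply, cIb, cJb]
  fin_cases i <;> fin_cases j <;> rfl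

theorem mapM0 : M0.map (Int.castRingHom (ZMod 5)) = M5 := by
  ext i j
  fin_cases i <;> fin_cases j <;> decide

theorem mulN5 : M5 * N5 = 1 := by decide +kernel

theorem Ru_base : (Int.castRingHom (ZMod 5)) (Ru ub) ≠ 0 := by
  intro h
  unfold Ru at h
  rw [sylM0, RingHom.map_det, RingHom.mapMatrix_apply, mapM0] at h
  have h2 : (M5 * N5).det = 1 := by rw [mulN5, Matrix.det_one]
  rw [Matrix.det_mul, h, zero_mul] at h2
  exact absurd h2 (by decide)

theorem five_MM : (5 : ℤ) ∣ MM := by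
  unfold MM
  refine Dvd.dvd.mul_left ?_ _
  have h : 5 ∣ QQ.factorial := Nat.dvd_factorial (by norm_num) (by have := S72.QQ_big; omega)
  exact_mod_cast Int.natCast_dvd_natCast.2 h

theorem Ru_ne (T : Tp) : Ru (uu T.1) ≠ 0 := by
  intro h
  have h5 := five_MM
  have hU : (fun i => (Int.castRingHom (ZMod 5)) (uu T.1 i)) =
      fun i => (Int.castRingHom (ZMod 5)) (ub i) := by
    funext i
    have h6 : ((5 : ℕ) : ℤ) ∣ uu T.1 i - ub i := by
      refine Dvd.dvd.trans (by exact_mod_cast h5) (?_ : MM ∣ uu T.1 i - ub i)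
      exact (cong_ww 0 T).1 i
    have h7 := (ZMod.intCast_zmod_eq_zero_iff_dvd _ 5).2 h6
    push_cast at h7
    have h8 := sub_eq_zero.1 h7
    simpa using h8
  have h1 := S72.map_Ru (Int.castRingHom (ZMod 5)) (uu T.1)
  rw [hU, ← S72.map_Ru, h, map_zero] at h1
  exact Ru_base h1.symm

end S17N

open S17N in
theorem st_RNZ : ST_RNZ := by
  obtain ⟨C, hC, h⟩ := (bo_Ru _ (fun i => S25.bo_u i)).mono (show 378 ≤ 1000 by norm_num)
  refine ⟨C.toNat + 1, by omega, fun m hm T hT => ⟨Ru_ne T, (h m hm T hT).trans ?_⟩⟩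
  have hm1 : (0 : ℤ) ≤ (m : ℤ) ^ 1000 := by positivity
  refine mul_le_mul_of_nonneg_right ?_ hm1
  push_cast
  have := Int.self_le_toNat C
  linarith

end Pool.Helper70.RN
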