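import Pool.Agent.Helper17.RN.FIN
import Pool.Agent.Helper17.RN.RNZ
import Pool.Agent.Helper72.RN.RDEG
import Pool.Agent.Helper58.RS.GEN
import Pool.Agent.Helper44.R8.RANKQ
import Pool.Agent.Helper74.RN.REL
import Pool.Agent.Helper44.RN.CERT
import Pool.Agent.Helper28.RN.PTS
import Pool.Agent.Helper63.RT.PT12
import Pool.Agent.Helper25.RN.BND
import Pool.Agent.Helper25.RN.PR2
import Pool.Agent.Helper72.RN.SVS
import Pool.Agent.Helper84.RN.SVL
import Pool.Agent.Helper91.RN.SIEVE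
import Pool.Agent.Helper9.RT.RES
import Pool.Agent.Helper9.RT.CURVE
import Pool.Agent.Helper53.RN.R9
import Pool.Agent.Helper70.RN.INJ
import Pool.Agent.Helper70.RN.WIN
import Pool.Agent.Helper29.RN.PAIR

set_option autoImplicit false

namespace Pool.Helper70.RN

open Pool.Helper70.RT (st_PT1 st_PT2 st_RES st_CURVE)

/-- Rank nine: `N_9(H) ≥ H ^ (5/36 - ε)`. -/
theorem rank_nine : ST_FIN :=
  st_FIN (st_CERT st_REL (st_PTS st_PT1 st_PT2 st_REL) Pool.Helper17.R8.st_RANKQ)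
    (st_BND st_REL)
    (st_SIEVE (st_SVS st_REL st_RES (st_RDEG st_R9)) (st_SVL st_REL st_RES st_RNZ))
    (st_PAIR st_REL st_CURVE st_INJ (st_WIN st_REL) st_PR2) Pool.Helper17.RS.st_GEN

end Pool.Helper70.RN
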