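import Pool.Agent.Helper70.RN.Sheet
import Pool.Agent.Helper17.R8.FIN

set_option autoImplicit false

namespace Pool.Helper70.RN

open Pool.Helper17.RS (RS NR ST_GEN cnt_RS_fin)
open Pool.Helper17.R8 (fin_cs)

namespace S17

theorem card_box (m : ℕ) : (Box m).card = m ^ 20 := by
  unfold Box
  rw [Finset.card_product, Fintype.card_piFinset]
  simp only [Finset.card_range, Finset.prod_const, Finset.card_univ, Fintype.card_fin]
  ring

theorem cong_ww (m : ℕ) (T : (Fin 4 → ℕ) × ℕ) : Cong (ww m T) :=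
  ⟨fun i => ⟨(T.1 i : ℤ), by simp [ww, uu]⟩, ⟨(m : ℤ) ^ 8 + (T.2 : ℤ), by simp [ww]⟩⟩

end S17

open Classical in
theorem st_FIN (hCERT : ST_CERT) (hBND : ST_BND) (hSIEVE : ST_SIEVE) (hPAIR : ST_PAIR)
    (hGEN : ST_GEN) : ST_FIN := by
  intro ε hε
  obtain ⟨C, hC, hbnd⟩ := hBND
  obtain ⟨m0, hS⟩ := hSIEVE
  set δ : ℝ := min ε 1 with hδ
  have hδ0 : 0 < δ := lt_min hε one_pos
  have hδ1 : δ ≤ 1 := min_le_right _ _
  have hδε : δ ≤ ε := min_le_left _ _
  obtain ⟨K, hKpos, hP⟩ := hPAIR δ hδ0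
  have hmain : ∀ m : ℕ, max m0 1 ≤ m →
      (m : ℝ) ^ (20 - δ) / (4 * K) ≤ ((RS 9 C (m ^ 12)).ncard : ℝ) := by
    intro m hm
    have hm0 : m0 ≤ m := le_trans (le_max_left _ _) hm
    have hm1 : 1 ≤ m := le_trans (le_max_right _ _) hm
    set bad := (Box m).filter (fun T => ∃ q : ℕ, q.Prime ∧ QQ < q ∧ (q : ℤ) ∣ cA (ww m T) ∧
      (q : ℤ) ∣ cB (ww m T)) with hbad
    set G := (Box m).filter (fun T => ¬ ∃ q : ℕ, q.Prime ∧ QQ < q ∧ (q : ℤ) ∣ cA (ww m T) ∧
      (q : ℤ) ∣ cB (ww m T)) with hG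
    have hbc : 2 * bad.card ≤ m ^ 20 := hS m hm0
    have hsum : bad.card + G.card = m ^ 20 := by
      rw [hbad, hG, Finset.card_filter_add_card_filter_not, S17.card_box]
    have hGc : m ^ 20 ≤ 2 * G.card := by omega
    set φ : (Fin 4 → ℕ) × ℕ → ℤ × ℤ := fun T => (cA (ww m T), cB (ww m T)) with hφ
    have hcs := fin_cs G φ
    have hpr : (((G ×ˢ G).filter (fun p => φ p.1 = φ p.2)).card : ℝ) ≤
        K * (m : ℝ) ^ (20 + δ) := by
      refine le_trans ?_ (hP m hm1)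
      have : ((G ×ˢ G).filter (fun p => φ p.1 = φ p.2)).card ≤
          ((Box m ×ˢ Box m).filter (fun p => cA (ww m p.1) = cA (ww m p.2) ∧
            cB (ww m p.1) = cB (ww m p.2))).card := by
        refine Finset.card_le_card ?_
        intro p hp
        rw [Finset.mem_filter, Finset.mem_product] at hp ⊢
        refine ⟨⟨(Finset.mem_filter.1 hp.1.1).1, (Finset.mem_filter.1 hp.1.2).1⟩, ?_⟩
        have := hp.2
        simp only [hφ, Prod.mk.injEq] at this
        exact this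
      exact_mod_cast this
    have hsub : ((G.image φ : Finset (ℤ × ℤ)) : Set (ℤ × ℤ)) ⊆ RS 9 C (m ^ 12) := by
      intro p hp
      rw [Finset.mem_coe, Finset.mem_image] at hp
      obtain ⟨T, hT, rfl⟩ := hp
      rw [hG, Finset.mem_filter] at hT
      obtain ⟨c1, c2, c3⟩ := hCERT (ww m T) (S17.cong_ww m T)
      obtain ⟨b1, b2⟩ := hbnd m hm1 T hT.1
      refine ⟨c1, ?_, ?_, ?_, ?_⟩
      · rintro q hq ⟨h4, h6⟩
        have h4' : (q : ℤ) ∣ cA (ww m T) := (dvd_pow_self _ (by norm_num)).trans h4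
        have h6' : (q : ℤ) ∣ cB (ww m T) := (dvd_pow_self _ (by norm_num)).trans h6
        by_cases hqQ : q ≤ QQ
        · exact c2 q hq hqQ ⟨h4', h6'⟩
        · exact hT.2 ⟨q, hq, by omega, h4', h6'⟩
      · refine b1.trans (le_of_eq ?_)
        have h1 : (m : ℤ) ^ 48 = ((m ^ 12 : ℕ) : ℤ) ^ 4 := by
          push_cast
          ring
        rw [h1]
      · refine b2.trans (le_of_eq ?_)
        have h1 : (m : ℤ) ^ 72 = ((m ^ 12 : ℕ) : ℤ) ^ 6 := by
          push_cast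
          ring
        rw [h1]
      · exact_mod_cast c3
    have hle : (G.image φ).card ≤ (RS 9 C (m ^ 12)).ncard := by
      rw [← Set.ncard_coe_finset]
      exact Set.ncard_le_ncard hsub (cnt_RS_fin 9 C (m ^ 12))
    have hmr : (0 : ℝ) < (m : ℝ) := by exact_mod_cast hm1
    have e1 : (m : ℝ) ^ 20 ≤ 2 * (G.card : ℝ) := by exact_mod_cast hGc
    have e2 : (G.card : ℝ) ^ 2 ≤ ((G.image φ).card : ℝ) * (K * (m : ℝ) ^ (20 + δ)) := by
      have h : (G.card : ℝ) ^ 2 ≤ ((G.image φ).card : ℝ) *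
          (((G ×ˢ G).filter (fun p => φ p.1 = φ p.2)).card : ℝ) := by exact_mod_cast hcs
      exact h.trans (mul_le_mul_of_nonneg_left hpr (Nat.cast_nonneg _))
    have e3 : ((m : ℝ) ^ 20 / 2) ^ 2 ≤ (G.card : ℝ) ^ 2 :=
      pow_le_pow_left₀ (by positivity) (by linarith) 2
    have e4 : ((G.image φ).card : ℝ) ≤ ((RS 9 C (m ^ 12)).ncard : ℝ) := by exact_mod_cast hle
    have hmp : (0 : ℝ) < (m : ℝ) ^ (20 + δ) := by positivity
    have e5 : (m : ℝ) ^ (20 - δ) / (4 * K) ≤ ((G.image φ).card : ℝ) := by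
      rw [div_le_iff₀ (by positivity)]
      have h1 : (m : ℝ) ^ (20 - δ) * (m : ℝ) ^ (20 + δ) = ((m : ℝ) ^ 20) ^ 2 := by
        rw [← Real.rpow_add hmr, ← pow_mul, ← Real.rpow_natCast]
        congr 1
        push_cast
        ring
      have h2 : (m : ℝ) ^ (20 + δ) * (m : ℝ) ^ (20 - δ) ≤
          (m : ℝ) ^ (20 + δ) * (((G.image φ).card : ℝ) * (4 * K)) := by
        calc (m : ℝ) ^ (20 + δ) * (m : ℝ) ^ (20 - δ) = ((m : ℝ) ^ 20) ^ 2 := by
              rw [mul_comm]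
              exact h1
          _ = 4 * ((m : ℝ) ^ 20 / 2) ^ 2 := by ring
          _ ≤ 4 * (((G.image φ).card : ℝ) * (K * (m : ℝ) ^ (20 + δ))) := by linarith
          _ = (m : ℝ) ^ (20 + δ) * (((G.image φ).card : ℝ) * (4 * K)) := by ring
      exact le_of_mul_le_mul_left h2 hmp
    exact e5.trans e4
  have hexp : (0 : ℝ) < 20 - δ := by linarith
  obtain ⟨c', hc', H₀, hH⟩ := hGEN 9 C hC ((20 - δ) / 12)
    (1 / (4 * K) * (1 / 2) ^ (20 - δ)) (by positivity)
    (by positivity) ((m0 + 2) ^ 12) (by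
      intro N hN
      set x : ℝ := (N : ℝ) ^ ((1 : ℝ) / 12) with hx
      have hx0 : (0 : ℝ) ≤ x := by positivity
      have hx5 : x ^ 12 = (N : ℝ) := by
        rw [hx, ← Real.rpow_natCast, ← Real.rpow_mul (by positivity)]
        norm_num
      set n : ℕ := ⌊x⌋₊ with hndef
      have hnx : (n : ℝ) ≤ x := Nat.floor_le hx0
      have hxn : x < (n : ℝ) + 1 := Nat.lt_floor_add_one x
      have hbig : ((m0 : ℝ) + 2) ≤ x := by
        have h1 : (((m0 : ℝ) + 2)) ^ 12 ≤ x ^ 12 := by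
          rw [hx5]
          exact_mod_cast hN
        exact le_of_pow_le_pow_left₀ (by norm_num) hx0 h1
      have hm00 : (0 : ℝ) ≤ (m0 : ℝ) := Nat.cast_nonneg _
      have hn0 : max m0 1 ≤ n := by
        rw [hndef]
        apply Nat.le_floor
        rw [Nat.cast_max]
        apply max_le
        · linarith
        · rw [Nat.cast_one]
          linarith
      have hn2 : x / 2 ≤ (n : ℝ) := by linarith
      have hnN : n ^ 12 ≤ N := by
        have h1 : (n : ℝ) ^ 12 ≤ x ^ 12 := pow_le_pow_left₀ (Nat.cast_nonneg _) hnx 12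
        rw [hx5] at h1
        exact_mod_cast h1
      have hsub : RS 9 C (n ^ 12) ⊆ RS 9 C N := by
        rintro p ⟨a1, a2, a3, a4, a5⟩
        have hle : ((n ^ 12 : ℕ) : ℤ) ≤ (N : ℤ) := by exact_mod_cast hnN
        have h0 : (0 : ℤ) ≤ ((n ^ 12 : ℕ) : ℤ) := by positivity
        refine ⟨a1, a2, a3.trans ?_, a4.trans ?_, a5⟩
        · exact mul_le_mul_of_nonneg_left (pow_le_pow_left₀ h0 hle 4) (by linarith)
        · exact mul_le_mul_of_nonneg_left (pow_le_pow_left₀ h0 hle 6) (by linarith)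
      have hcard : ((RS 9 C (n ^ 12)).ncard : ℝ) ≤ ((RS 9 C N).ncard : ℝ) := by
        exact_mod_cast Set.ncard_le_ncard hsub (cnt_RS_fin 9 C N)
      refine le_trans ?_ ((hmain n hn0).trans hcard)
      have h1 : (x / 2) ^ (20 - δ) ≤ (n : ℝ) ^ (20 - δ) :=
        Real.rpow_le_rpow (by positivity) hn2 hexp.le
      have h2 : (N : ℝ) ^ ((20 - δ) / 12) = x ^ (20 - δ) := by
        rw [hx, ← Real.rpow_mul (by positivity)]
        congr 1
        ring
      rw [h2]
      have h3 : (x / 2) ^ (20 - δ) = (1 / 2 : ℝ) ^ (20 - δ) * x ^ (20 - δ) := by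
        rw [← Real.mul_rpow (by norm_num) hx0]
        congr 1
        ring
      rw [h3] at h1
      rw [le_div_iff₀ (by positivity)]
      have h4 : 1 / (4 * K) * (1 / 2 : ℝ) ^ (20 - δ) * x ^ (20 - δ) * (4 * K) =
          (1 / 2 : ℝ) ^ (20 - δ) * x ^ (20 - δ) := by
        field_simp
      rw [h4]
      exact h1)
  have hgap : (0 : ℝ) < ε - δ / 144 := by linarith
  refine ⟨max H₀ (max 1 ((1 / c') ^ (1 / (ε - δ / 144)))), fun H hH' => ?_⟩
  have e1 : H₀ ≤ H := le_trans (le_max_left _ _) hH'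
  have e2 : (1 : ℝ) ≤ H := le_trans (le_trans (le_max_left _ _) (le_max_right _ _)) hH'
  have e3 : (1 / c') ^ (1 / (ε - δ / 144)) ≤ H :=
    le_trans (le_trans (le_max_right _ _) (le_max_right _ _)) hH'
  have hpos : (0 : ℝ) < H := by linarith
  have e4 : 1 / c' ≤ H ^ (ε - δ / 144) := by
    have := Real.rpow_le_rpow (by positivity) e3 hgap.le
    rwa [← Real.rpow_mul (by positivity), one_div_mul_cancel hgap.ne', Real.rpow_one] at this
  refine le_trans ?_ (hH H e1)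
  have e5 : H ^ ((20 - δ) / 12 / 12) = H ^ ((5 : ℝ) / 36 - ε) * H ^ (ε - δ / 144) := by
    rw [← Real.rpow_add hpos]
    congr 1
    ring
  rw [e5]
  have e6 : (1 : ℝ) ≤ c' * H ^ (ε - δ / 144) := by
    have := mul_le_mul_of_nonneg_left e4 hc'.le
    rwa [mul_one_div_cancel hc'.ne'] at this
  have e7 : (0 : ℝ) ≤ H ^ ((5 : ℝ) / 36 - ε) := by positivity
  nlinarith

end Pool.Helper70.RN
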